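import Mathlib
import Pool.Agent.H79.DepthDefs
import Pool.Agent.H79.DepthMain

set_option autoImplicit false

namespace Pool.Agent.Results.MP_07d438_ag.MinVars

open Pool.Agent.H79.DepthDefs

open Classical in
/-- For every field `K` and every convergent `f` with maximum `m` on `t ≥ 1`, the least number of
variables realizing `f` as a depth function is `m + 1` if `f` is constant and `m + 2` otherwise. -/
theorem result (K : Type) [Field K] (f : ℕ → ℕ) (hc : ∃ c T : ℕ, ∀ t, T ≤ t → f t = c) (m : ℕ)
    (hm : IsGreatest {v : ℕ | ∃ t, 1 ≤ t ∧ f t = v} m) :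
    IsLeast {n : ℕ | RealizedIn K f n} (if ∀ t, 1 ≤ t → f t = m then m + 1 else m + 2) :=
  Pool.Agent.H79.DepthMain.main K f hc m hm

end Pool.Agent.Results.MP_07d438_ag.MinVars
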